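import Mathlib

/-!
# Random subsets: many disjoint patterns appear

For pairwise disjoint sets `E i` of size at most `D` and patterns `Y i ⊆ E i`, almost every subset
`S` of a finite set has a positive fraction of `i` with `S ∩ E i = Y i`.
-/

set_option autoImplicit false
set_option linter.unusedSectionVars false

namespace Pool.Agent.N595.RC

open Finset

variable {α ι : Type*} [Fintype α] [DecidableEq α]

/-- The number of indices in `P` at which the pattern of `S` is as prescribed. -/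
def hits (P : Finset ι) (E Y : ι → Finset α) (S : Finset α) : ℕ :=
  #{i ∈ P | S ∩ E i = Y i}

theorem symmDiff_inter_of_disjoint {S R E : Finset α} (h : Disjoint R E) :
    symmDiff S R ∩ E = S ∩ E := by
  ext x
  simp only [mem_inter, mem_symmDiff]
  constructor
  · rintro ⟨h1 | h1, h2⟩
    · exact ⟨h1.1, h2⟩
    · exact absurd h2 (Finset.disjoint_left.1 h h1.1)
  · rintro ⟨h1, h2⟩
    exact ⟨Or.inl ⟨h1, fun h3 => Finset.disjoint_left.1 h h3 h2⟩, h2⟩

theorem sum_invariant_mul (E : Finset α) (w g : Finset α → ℝ)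
    (hw : ∀ S R, R ⊆ E → w (symmDiff S R) = w S) :
    (2 : ℝ) ^ #E * ∑ S : Finset α, w S * g S =
      ∑ S : Finset α, w S * ∑ R ∈ E.powerset, g (symmDiff S R) := by
  have h1 : ∀ R ∈ E.powerset, ∑ S : Finset α, w S * g S =
      ∑ S : Finset α, w S * g (symmDiff S R) := by
    intro R hR
    rw [mem_powerset] at hR
    have h2 : ∑ S : Finset α, w S * g S =
        ∑ S : Finset α, w (symmDiff S R) * g (symmDiff S R) := by
      refine (Fintype.sum_bijective (fun S => symmDiff S R) ?_ _ _ fun S => rfl).symm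
      exact (symmDiff_left_involutive R).bijective
    rw [h2]
    exact Finset.sum_congr rfl fun S _ => by rw [hw S R hR]
  calc (2 : ℝ) ^ #E * ∑ S : Finset α, w S * g S
      = ∑ R ∈ E.powerset, ∑ S : Finset α, w S * g S := by
        rw [Finset.sum_const, card_powerset, nsmul_eq_mul]
        push_cast
        ring
    _ = ∑ R ∈ E.powerset, ∑ S : Finset α, w S * g (symmDiff S R) :=
        Finset.sum_congr rfl h1
    _ = ∑ S : Finset α, w S * ∑ R ∈ E.powerset, g (symmDiff S R) := by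
        rw [Finset.sum_comm]
        exact Finset.sum_congr rfl fun S _ => by rw [Finset.mul_sum]

theorem sum_pattern {E Y : Finset α} (hY : Y ⊆ E) (S : Finset α) :
    ∑ R ∈ E.powerset, (if symmDiff S R ∩ E = Y then (1 / 2 : ℝ) else 1) =
      2 ^ #E - 1 / 2 := by
  have h0 : symmDiff (S ∩ E) Y ∈ E.powerset := by
    rw [mem_powerset]
    intro x hx
    rw [mem_symmDiff] at hx
    rcases hx with hx | hx
    · exact (mem_inter.1 hx.1).2
    · exact hY hx.1
  have h1 : ∀ R ∈ E.powerset, symmDiff S R ∩ E = Y ↔ R = symmDiff (S ∩ E) Y := by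
    intro R hR
    rw [mem_powerset] at hR
    have h2 : symmDiff S R ∩ E = symmDiff (S ∩ E) R := by
      ext x
      simp only [mem_inter, mem_symmDiff]
      constructor
      · rintro ⟨h1 | h1, h2⟩
        · exact Or.inl ⟨⟨h1.1, h2⟩, h1.2⟩
        · exact Or.inr ⟨h1.1, fun h3 => h1.2 h3.1⟩
      · rintro (h1 | h1)
        · exact ⟨Or.inl ⟨h1.1.1, h1.2⟩, h1.1.2⟩
        · exact ⟨Or.inr ⟨h1.1, fun h3 => h1.2 ⟨h3, hR h1.1⟩⟩, hR h1.1⟩
    rw [h2]
    constructor
    · rintro rfl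
      rw [symmDiff_symmDiff_cancel_left]
    · rintro rfl
      rw [symmDiff_symmDiff_cancel_left]
  have h2 : ∑ R ∈ E.powerset, (if symmDiff S R ∩ E = Y then (1 / 2 : ℝ) else 1) =
      ∑ R ∈ E.powerset, ((1 : ℝ) - if R = symmDiff (S ∩ E) Y then 1 / 2 else 0) := by
    refine Finset.sum_congr rfl fun R hR => ?_
    by_cases h3 : symmDiff S R ∩ E = Y
    · rw [if_pos h3, if_pos ((h1 R hR).1 h3)]
      norm_num
    · rw [if_neg h3, if_neg fun h4 => h3 ((h1 R hR).2 h4)]
      norm_num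
  rw [h2, Finset.sum_sub_distrib, Finset.sum_ite_eq' , if_pos h0]
  simp

theorem sum_half_pow (D : ℕ) (P : Finset ι) (E Y : ι → Finset α)
    (hY : ∀ i ∈ P, Y i ⊆ E i) (hD : ∀ i ∈ P, #(E i) ≤ D)
    (hdisj : (P : Set ι).PairwiseDisjoint E) :
    ∑ S : Finset α, (1 / 2 : ℝ) ^ hits P E Y S ≤
      2 ^ Fintype.card α * (1 - (1 / 2) ^ (D + 1)) ^ #P := by
  classical
  induction P using Finset.induction_on with
  | empty =>
    simp [hits, Fintype.card_finset]
  | insert i P hi ih =>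
    have ih' := ih (fun j hj => hY j (mem_insert_of_mem hj))
      (fun j hj => hD j (mem_insert_of_mem hj))
      (hdisj.subset (by simp))
    have hE : ∀ j ∈ P, Disjoint (E i) (E j) := by
      intro j hj
      refine hdisj (by simp) (by simp [hj]) ?_
      rintro rfl
      exact hi hj
    have hw : ∀ S R, R ⊆ E i → (1 / 2 : ℝ) ^ hits P E Y (symmDiff S R) =
        (1 / 2 : ℝ) ^ hits P E Y S := by
      intro S R hR
      congr 1
      unfold hits
      congr 1
      refine Finset.filter_congr fun j hj => ?_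
      rw [symmDiff_inter_of_disjoint ((hE j hj).mono_left hR)]
    have h1 : ∀ S : Finset α, (1 / 2 : ℝ) ^ hits (insert i P) E Y S =
        (1 / 2 : ℝ) ^ hits P E Y S * if S ∩ E i = Y i then (1 / 2 : ℝ) else 1 := by
      intro S
      unfold hits
      rw [Finset.filter_insert]
      by_cases h : S ∩ E i = Y i
      · rw [if_pos h, if_pos h, card_insert_of_notMem (by simp [hi]), pow_succ]
      · rw [if_neg h, if_neg h, mul_one]
    have h2 := sum_invariant_mul (E i) (fun S => (1 / 2 : ℝ) ^ hits P E Y S)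
      (fun S => if S ∩ E i = Y i then (1 / 2 : ℝ) else 1) hw
    have h3 : ∑ S : Finset α, (1 / 2 : ℝ) ^ hits P E Y S *
        ∑ R ∈ (E i).powerset, (if symmDiff S R ∩ E i = Y i then (1 / 2 : ℝ) else 1) =
        (∑ S : Finset α, (1 / 2 : ℝ) ^ hits P E Y S) * (2 ^ #(E i) - 1 / 2) := by
      rw [Finset.sum_mul]
      refine Finset.sum_congr rfl fun S _ => ?_
      rw [sum_pattern (hY i (mem_insert_self i P))]
    simp only [h1]
    have h4 : (0 : ℝ) < 2 ^ #(E i) := by positivity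
    have h5 : (∑ S : Finset α, (1 / 2 : ℝ) ^ hits P E Y S *
        if S ∩ E i = Y i then (1 / 2 : ℝ) else 1) =
        (∑ S : Finset α, (1 / 2 : ℝ) ^ hits P E Y S) * (1 - (1 / 2) ^ (#(E i) + 1)) := by
      have h6 := h2.trans h3
      have h7 : (2 : ℝ) ^ #(E i) * (1 / 2) ^ (#(E i) + 1) = 1 / 2 := by
        rw [pow_succ, ← mul_assoc, ← mul_pow]
        norm_num
      apply mul_left_cancel₀ h4.ne'
      rw [h6]
      linear_combination (∑ S : Finset α, (1 / 2 : ℝ) ^ hits P E Y S) * h7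
    rw [h5, card_insert_of_notMem hi, pow_succ]
    have h8 : (1 : ℝ) - (1 / 2) ^ (#(E i) + 1) ≤ 1 - (1 / 2) ^ (D + 1) := by
      have := pow_le_pow_of_le_one (by norm_num : (0 : ℝ) ≤ 1 / 2) (by norm_num)
        (Nat.succ_le_succ (hD i (mem_insert_self i P)))
      simp only [Nat.succ_eq_add_one] at this
      linarith
    have h9 : (0 : ℝ) ≤ 1 - (1 / 2) ^ (#(E i) + 1) := by
      have : ((1 : ℝ) / 2) ^ (#(E i) + 1) ≤ 1 := pow_le_one₀ (by norm_num) (by norm_num)
      linarith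
    calc (∑ S : Finset α, (1 / 2 : ℝ) ^ hits P E Y S) * (1 - (1 / 2) ^ (#(E i) + 1))
        ≤ (2 ^ Fintype.card α * (1 - (1 / 2) ^ (D + 1)) ^ #P) * (1 - (1 / 2) ^ (D + 1)) :=
          mul_le_mul ih' h8 h9 (by
            have : ((1 : ℝ) / 2) ^ (D + 1) ≤ 1 := pow_le_one₀ (by norm_num) (by norm_num)
            have h10 : (0 : ℝ) ≤ 1 - (1 / 2) ^ (D + 1) := by linarith
            positivity)
      _ = _ := by ring

/-- **Many hits.** For all but a fraction `exp (- #P / 2 ^ (D + 2))` of the subsets `S`, the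
pattern is the prescribed one at more than `j` of the indices in `P`, if `2 ^ (D + 2) j ≤ #P`. -/
theorem few_hits (D : ℕ) (P : Finset ι) (E Y : ι → Finset α)
    (hY : ∀ i ∈ P, Y i ⊆ E i) (hD : ∀ i ∈ P, #(E i) ≤ D)
    (hdisj : (P : Set ι).PairwiseDisjoint E) (j : ℕ) (hj : 2 ^ (D + 2) * j ≤ #P) :
    (#{S : Finset α | hits P E Y S ≤ j} : ℝ) ≤
      2 ^ Fintype.card α * Real.exp (-(#P / 2 ^ (D + 2) : ℝ)) := by
  have h1 := sum_half_pow D P E Y hY hD hdisj
  have h2 : (#{S : Finset α | hits P E Y S ≤ j} : ℝ) * (1 / 2) ^ j ≤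
      ∑ S : Finset α, (1 / 2 : ℝ) ^ hits P E Y S := by
    rw [← nsmul_eq_mul, ← Finset.sum_const]
    refine (Finset.sum_le_sum (f := fun _ => ((1 : ℝ) / 2) ^ j)
      (g := fun S => (1 / 2 : ℝ) ^ hits P E Y S) fun S hS => ?_).trans
      (Finset.sum_le_sum_of_subset_of_nonneg (Finset.filter_subset _ _) fun S _ _ => by positivity)
    rw [mem_filter] at hS
    exact pow_le_pow_of_le_one (by norm_num) (by norm_num) hS.2
  have h3 : ((1 : ℝ) - (1 / 2) ^ (D + 1)) ^ #P ≤ Real.exp (-(#P / 2 ^ (D + 1) : ℝ)) := by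
    have h4 : (0 : ℝ) ≤ 1 - (1 / 2) ^ (D + 1) := by
      have : ((1 : ℝ) / 2) ^ (D + 1) ≤ 1 := pow_le_one₀ (by norm_num) (by norm_num)
      linarith
    have h5 : (1 : ℝ) - (1 / 2) ^ (D + 1) ≤ Real.exp (-(1 / 2) ^ (D + 1)) := by
      have := Real.add_one_le_exp (-((1 : ℝ) / 2) ^ (D + 1))
      linarith
    calc ((1 : ℝ) - (1 / 2) ^ (D + 1)) ^ #P ≤ (Real.exp (-(1 / 2) ^ (D + 1))) ^ #P :=
          pow_le_pow_left₀ h4 h5 _
      _ = Real.exp (-(#P / 2 ^ (D + 1) : ℝ)) := by
          rw [← Real.exp_nat_mul]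
          congr 1
          rw [one_div, inv_pow]
          ring
  have h6 : (2 : ℝ) ^ j ≤ Real.exp (#P / 2 ^ (D + 2) : ℝ) := by
    have h7 : (2 : ℝ) ^ j ≤ Real.exp j := by
      have h8 : (2 : ℝ) ≤ Real.exp 1 := by
        have := Real.add_one_le_exp (1 : ℝ)
        linarith
      calc (2 : ℝ) ^ j ≤ (Real.exp 1) ^ j := pow_le_pow_left₀ (by norm_num) h8 _
        _ = Real.exp j := by rw [← Real.exp_nat_mul, mul_one]
    refine h7.trans (Real.exp_le_exp.2 ?_)
    rw [le_div_iff₀ (by positivity)]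
    have : ((2 ^ (D + 2) * j : ℕ) : ℝ) ≤ (#P : ℝ) := by exact_mod_cast hj
    push_cast at this
    linarith
  have h9 : (#{S : Finset α | hits P E Y S ≤ j} : ℝ) =
      (#{S : Finset α | hits P E Y S ≤ j} : ℝ) * (1 / 2) ^ j * 2 ^ j := by
    rw [mul_assoc, ← mul_pow]
    norm_num
  rw [h9]
  calc (#{S : Finset α | hits P E Y S ≤ j} : ℝ) * (1 / 2) ^ j * 2 ^ j
      ≤ (2 ^ Fintype.card α * (1 - (1 / 2) ^ (D + 1)) ^ #P) * 2 ^ j :=
        mul_le_mul_of_nonneg_right (h2.trans h1) (by positivity)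
    _ ≤ (2 ^ Fintype.card α * Real.exp (-(#P / 2 ^ (D + 1) : ℝ))) *
        Real.exp (#P / 2 ^ (D + 2) : ℝ) :=
        mul_le_mul (mul_le_mul_of_nonneg_left h3 (by positivity)) h6 (by positivity)
          (by positivity)
    _ = 2 ^ Fintype.card α * Real.exp (-(#P / 2 ^ (D + 2) : ℝ)) := by
        rw [mul_assoc, ← Real.exp_add]
        congr 2
        have hq : (2 : ℝ) ^ (D + 2) = 2 * 2 ^ (D + 1) := by ring
        rw [hq]
        have h10 : (#P : ℝ) / 2 ^ (D + 1) = 2 * (#P / (2 * 2 ^ (D + 1))) := by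
          rw [← mul_div_assoc, mul_div_mul_left _ _ two_ne_zero]
        linarith

end Pool.Agent.N595.RC
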