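import Mathlib

/-!
# Anti-concentration of functions with strictly increasing coordinates
-/

set_option autoImplicit false
set_option linter.unusedSectionVars false

namespace Pool.Agent.N595.RC

open Finset

variable {α : Type*} [Fintype α] [DecidableEq α]

/-- The largest binomial coefficient `n.choose (n / 2)` divided by `2 ^ n`. -/
noncomputable def bet (n : ℕ) : ℝ := (n.choose (n / 2) : ℝ) / 2 ^ n

theorem bet_nonneg (n : ℕ) : 0 ≤ bet n := by unfold bet; positivity

theorem bet_le_one (n : ℕ) : bet n ≤ 1 := by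
  unfold bet
  rw [div_le_one (by positivity)]
  exact_mod_cast Nat.choose_le_two_pow n _

theorem cb_sq (p : ℕ) : ((Nat.centralBinom p : ℕ) : ℝ) ^ 2 * (2 * p + 1) ≤ 16 ^ p := by
  induction p with
  | zero => simp
  | succ p ih =>
    have h1 : ((p : ℝ) + 1) * (Nat.centralBinom (p + 1) : ℝ) =
        2 * (2 * p + 1) * (Nat.centralBinom p : ℝ) := by
      exact_mod_cast Nat.succ_mul_centralBinom_succ p
    have hp : (0 : ℝ) ≤ p := Nat.cast_nonneg p
    have h2 : ((p : ℝ) + 1) ^ 2 * ((Nat.centralBinom (p + 1) : ℝ) ^ 2 * (2 * ((p : ℝ) + 1) + 1)) ≤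
        ((p : ℝ) + 1) ^ 2 * (16 ^ p * 16) := by
      calc ((p : ℝ) + 1) ^ 2 * ((Nat.centralBinom (p + 1) : ℝ) ^ 2 * (2 * ((p : ℝ) + 1) + 1))
          = (((p : ℝ) + 1) * (Nat.centralBinom (p + 1) : ℝ)) ^ 2 * (2 * ((p : ℝ) + 1) + 1) := by
            ring
        _ = ((Nat.centralBinom p : ℝ) ^ 2 * (2 * p + 1)) * (4 * (2 * p + 1) * (2 * p + 3)) := by
            rw [h1]; ring
        _ ≤ 16 ^ p * (4 * (2 * p + 1) * (2 * p + 3)) := by
            apply mul_le_mul_of_nonneg_right ih; positivity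
        _ ≤ 16 ^ p * (16 * ((p : ℝ) + 1) ^ 2) := by
            apply mul_le_mul_of_nonneg_left _ (by positivity)
            nlinarith
        _ = ((p : ℝ) + 1) ^ 2 * (16 ^ p * 16) := by ring
    have h3 := le_of_mul_le_mul_left h2 (by positivity)
    rw [pow_succ]
    push_cast
    exact h3

theorem cb_le (p : ℕ) : (Nat.centralBinom p : ℝ) / 2 ^ (2 * p) ≤ 1 / Real.sqrt (2 * p + 1) := by
  have hp : (0 : ℝ) ≤ p := Nat.cast_nonneg p
  have hs : 0 < Real.sqrt (2 * p + 1) := Real.sqrt_pos.2 (by positivity)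
  rw [div_le_div_iff₀ (by positivity) hs, one_mul]
  have h := cb_sq p
  have h1 : (2 : ℝ) ^ (2 * p) = Real.sqrt (16 ^ p) := by
    rw [show (16 : ℝ) ^ p = (2 ^ (2 * p)) ^ 2 by
      rw [← pow_mul, show (16 : ℝ) = 2 ^ 4 by norm_num, ← pow_mul]; congr 1; ring]
    rw [Real.sqrt_sq (by positivity)]
  rw [h1]
  apply Real.le_sqrt_of_sq_le
  rw [mul_pow, Real.sq_sqrt (by positivity)]
  exact h

theorem bet_le (n : ℕ) (hn : 1 ≤ n) : bet n ≤ 1 / Real.sqrt n := by
  unfold bet
  generalize n / 2 = j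
  obtain ⟨p, rfl | rfl⟩ := Nat.even_or_odd' n
  · have h1 : ((2 * p).choose j : ℝ) ≤ (Nat.centralBinom p : ℝ) := by
      exact_mod_cast Nat.choose_le_centralBinom j p
    have hp : 0 < Real.sqrt ((2 * p : ℕ) : ℝ) := Real.sqrt_pos.2 (by exact_mod_cast hn)
    calc ((2 * p).choose j : ℝ) / 2 ^ (2 * p) ≤ (Nat.centralBinom p : ℝ) / 2 ^ (2 * p) := by gcongr
      _ ≤ 1 / Real.sqrt (2 * p + 1) := cb_le p
      _ ≤ 1 / Real.sqrt ((2 * p : ℕ) : ℝ) := by
          apply one_div_le_one_div_of_le hp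
          apply Real.sqrt_le_sqrt; push_cast; linarith
  · have h1 : ((2 * p + 1).choose j : ℝ) ≤ 2 * (Nat.centralBinom p : ℝ) := by
      rcases j with _ | j
      · simp only [Nat.choose_zero_right, Nat.cast_one]
        have : (1 : ℝ) ≤ Nat.centralBinom p := by exact_mod_cast Nat.centralBinom_pos p
        linarith
      · rw [Nat.choose_succ_succ]
        have a : ((2 * p).choose j : ℝ) ≤ (Nat.centralBinom p : ℝ) := by
          exact_mod_cast Nat.choose_le_centralBinom j p
        have b : ((2 * p).choose (j + 1) : ℝ) ≤ (Nat.centralBinom p : ℝ) := by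
          exact_mod_cast Nat.choose_le_centralBinom (j + 1) p
        push_cast
        linarith
    calc ((2 * p + 1).choose j : ℝ) / 2 ^ (2 * p + 1)
        ≤ (2 * (Nat.centralBinom p : ℝ)) / 2 ^ (2 * p + 1) := by gcongr
      _ = (Nat.centralBinom p : ℝ) / 2 ^ (2 * p) := by
          rw [pow_succ]; field_simp
      _ ≤ 1 / Real.sqrt (2 * p + 1) := cb_le p
      _ = 1 / Real.sqrt ((2 * p + 1 : ℕ) : ℝ) := by push_cast; rfl

theorem bet_le_of_le {m n : ℕ} (hm : 1 ≤ m) (h : m ≤ n) : bet n ≤ 1 / Real.sqrt m := by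
  refine (bet_le n (hm.trans h)).trans ?_
  have h1 : 0 < Real.sqrt m := Real.sqrt_pos.2 (by exact_mod_cast hm)
  exact one_div_le_one_div_of_le h1 (Real.sqrt_le_sqrt (by exact_mod_cast h))

theorem sperner_powerset (B : Finset α) (F : Finset (Finset α)) (hF : ∀ Q ∈ F, Q ⊆ B)
    (ha : IsAntichain (· ⊆ ·) (F : Set (Finset α))) : #F ≤ (#B).choose (#B / 2) := by
  have hs : ∀ Q ∈ F, (Q.subtype (· ∈ B)).map (Function.Embedding.subtype _) = Q := by
    intro Q hQ
    exact Finset.subtype_map_of_mem fun x hx => hF Q hQ hx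
  have hinj : Set.InjOn (fun Q : Finset α => Q.subtype (· ∈ B)) (F : Set (Finset α)) := by
    intro Q hQ Q' hQ' h
    rw [← hs Q hQ, ← hs Q' hQ']
    exact congrArg _ h
  have h1 : IsAntichain (· ⊆ ·)
      ((F.image fun Q => Q.subtype (· ∈ B) : Finset (Finset {x // x ∈ B})) :
        Set (Finset {x // x ∈ B})) := by
    intro R hR R' hR' hne hsub
    rw [mem_coe, mem_image] at hR hR'
    obtain ⟨Q, hQ, rfl⟩ := hR
    obtain ⟨Q', hQ', rfl⟩ := hR'
    refine ha hQ hQ' ?_ ?_
    · rintro rfl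
      exact hne rfl
    · intro x hx
      have h2 : (⟨x, hF Q hQ hx⟩ : {x // x ∈ B}) ∈ Q.subtype (· ∈ B) := by simp [hx]
      have h3 := hsub h2
      simpa using h3
  have h2 := h1.sperner
  rw [card_image_of_injOn hinj] at h2
  simpa using h2

theorem monotone_flip {A : Finset α} {δ : Finset α → ℤ} {R : Finset α}
    (hδ : ∀ Q, Q ⊆ A → ∀ p ∈ A, p ∉ Q → δ (R ∪ Q) < δ (R ∪ insert p Q))
    {Q Q' : Finset α} (hQ' : Q' ⊆ A) (h : Q ⊂ Q') : δ (R ∪ Q) < δ (R ∪ Q') := by
  obtain ⟨hsub, hne⟩ := h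
  have key : ∀ T : Finset α, T ⊆ A → Disjoint T Q → T.Nonempty → δ (R ∪ Q) < δ (R ∪ (T ∪ Q)) := by
    intro T
    induction T using Finset.induction_on with
    | empty => intro _ _ h; exact absurd h (by simp)
    | insert p T hp ih =>
      intro hT hd _
      have hT' : T ⊆ A := (subset_insert p T).trans hT
      have hd' : Disjoint T Q := hd.mono_left (subset_insert p T)
      have hpQ : p ∉ Q := Finset.disjoint_left.1 hd (mem_insert_self p T)
      have hpA : p ∈ A := hT (mem_insert_self p T)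
      have h1 := hδ (T ∪ Q) (union_subset hT' (hsub.trans hQ')) p hpA (by simp [hp, hpQ])
      rw [← insert_union] at h1
      rcases T.eq_empty_or_nonempty with rfl | hne
      · simpa using h1
      · exact (ih hT' hd' hne).trans h1
  have h1 := key (Q' \ Q) (sdiff_subset.trans hQ') sdiff_disjoint (by
    rw [Finset.nonempty_iff_ne_empty]
    intro h2
    exact hne (sdiff_eq_empty_iff_subset.1 h2))
  rwa [sdiff_union_of_subset hsub] at h1

/-- **Anti-concentration step.** `A S` depends only on `S \ P` and is contained in `P`. The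
function `δ` increases strictly if an element of `A S` is added to `S`, and the weight `W` does
not change. Then the sum of the weights over the zeros of `δ` is at most the sum of
`W S * bet #(A S)`. -/
theorem step (P : Finset α) (A : Finset α → Finset α) (hAP : ∀ S, A S ⊆ P)
    (hA : ∀ S S', S \ P = S' \ P → A S = A S') (δ : Finset α → ℤ)
    (hδ : ∀ S, ∀ p ∈ A S, p ∉ S → δ S < δ (insert p S)) (W : Finset α → ℝ)
    (hW0 : ∀ S, 0 ≤ W S) (hW : ∀ S, ∀ p ∈ A S, p ∉ S → W (insert p S) = W S) :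
    ∑ S : Finset α with δ S = 0, W S ≤ ∑ S : Finset α, W S * bet #(A S) := by
  classical
  set key : Finset α → Finset α × Finset α := fun S => (A S, S \ A S) with hkey
  have hmaps : ∀ S ∈ (univ : Finset (Finset α)), key S ∈ univ.image key := fun S _ =>
    mem_image_of_mem key (mem_univ S)
  have hmaps' : ∀ S ∈ (univ.filter fun S : Finset α => δ S = 0), key S ∈ univ.image key :=
    fun S _ => mem_image_of_mem key (mem_univ S)
  rw [← Finset.sum_fiberwise_of_maps_to hmaps, ← Finset.sum_fiberwise_of_maps_to hmaps']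
  refine Finset.sum_le_sum fun k hk => ?_
  rw [mem_image] at hk
  obtain ⟨S₁, _, rfl⟩ := hk
  set B := A S₁ with hB
  set R := S₁ \ A S₁ with hR
  have hRB : Disjoint R B := sdiff_disjoint
  have hAU : ∀ Q, Q ⊆ B → A (R ∪ Q) = B := by
    intro Q hQ
    refine hA _ _ ?_
    ext x
    simp only [mem_sdiff, mem_union, hR]
    constructor
    · rintro ⟨h1 | h1, h2⟩
      · exact ⟨h1.1, h2⟩
      · exact absurd (hAP _ (hQ h1)) h2
    · rintro ⟨h1, h2⟩
      exact ⟨Or.inl ⟨h1, fun h3 => h2 (hAP _ h3)⟩, h2⟩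
  have hkeyU : ∀ Q, Q ⊆ B → key (R ∪ Q) = key S₁ := by
    intro Q hQ
    have h1 := hAU Q hQ
    simp only [hkey]
    rw [h1]
    refine Prod.ext rfl ?_
    show (R ∪ Q) \ B = R
    rw [union_sdiff_distrib, sdiff_eq_empty_iff_subset.2 hQ, union_empty, hRB.sdiff_eq_left]
  have hfib : ∀ S, key S = key S₁ → ∃ Q, Q ⊆ B ∧ S = R ∪ Q := by
    intro S hS
    simp only [hkey, Prod.mk.injEq] at hS
    obtain ⟨h1, h2⟩ := hS
    refine ⟨S ∩ B, inter_subset_right, ?_⟩
    rw [hR, ← h2, h1, ← hB, sdiff_union_inter]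
  have hinj : Set.InjOn (fun Q => R ∪ Q) (B.powerset : Set (Finset α)) := by
    intro Q hQ Q' hQ' h
    rw [mem_coe, mem_powerset] at hQ hQ'
    have h1 : ∀ Q, Q ⊆ B → (R ∪ Q) ∩ B = Q := by
      intro Q hQ
      rw [union_inter_distrib_right, disjoint_iff_inter_eq_empty.1 hRB, empty_union,
        inter_eq_left.2 hQ]
    rw [← h1 Q hQ, ← h1 Q' hQ']
    exact congrArg (· ∩ B) h
  have hWU : ∀ Q, Q ⊆ B → W (R ∪ Q) = W R := by
    intro Q
    induction Q using Finset.induction_on with
    | empty => intro _; rw [union_empty]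
    | insert p Q hp ih =>
      intro hQ
      have hQ' : Q ⊆ B := (subset_insert p Q).trans hQ
      have hpB : p ∈ B := hQ (mem_insert_self p Q)
      rw [union_insert, hW (R ∪ Q) p (by rw [hAU Q hQ']; exact hpB) ?_, ih hQ']
      rw [mem_union, not_or]
      exact ⟨fun h => Finset.disjoint_left.1 hRB h hpB, hp⟩
  have hfilter : (univ.filter fun S : Finset α => key S = key S₁) =
      B.powerset.image fun Q => R ∪ Q := by
    ext S
    simp only [mem_filter, mem_univ, true_and, mem_image, mem_powerset]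
    constructor
    · intro h
      obtain ⟨Q, h1, h2⟩ := hfib S h
      exact ⟨Q, h1, h2.symm⟩
    · rintro ⟨Q, h1, rfl⟩
      exact hkeyU Q h1
  have hrhs : ∑ S ∈ univ.filter (fun S : Finset α => key S = key S₁), W S * bet #(A S) =
      W R * ((#B).choose (#B / 2)) := by
    rw [hfilter, Finset.sum_image hinj]
    rw [Finset.sum_congr rfl fun Q hQ => by
      rw [hWU Q (mem_powerset.1 hQ), hAU Q (mem_powerset.1 hQ)]]
    rw [Finset.sum_const, card_powerset, nsmul_eq_mul]
    unfold bet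
    push_cast
    field_simp
  have hlhs : ∑ S ∈ (univ.filter fun S : Finset α => δ S = 0).filter (fun S => key S = key S₁),
      W S ≤ W R * ((#B).choose (#B / 2)) := by
    have h1 : (univ.filter fun S : Finset α => δ S = 0).filter (fun S => key S = key S₁) =
        (B.powerset.filter fun Q => δ (R ∪ Q) = 0).image fun Q => R ∪ Q := by
      ext S
      simp only [mem_filter, mem_univ, true_and, mem_image, mem_powerset]
      constructor
      · rintro ⟨h0, h⟩
        obtain ⟨Q, h1, h2⟩ := hfib S h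
        exact ⟨Q, ⟨h1, by rw [← h2]; exact h0⟩, h2.symm⟩
      · rintro ⟨Q, ⟨h1, h2⟩, rfl⟩
        exact ⟨h2, hkeyU Q h1⟩
    rw [h1, Finset.sum_image (hinj.mono (by
      intro Q hQ
      exact (mem_filter.1 hQ).1))]
    rw [Finset.sum_congr rfl fun Q hQ => by
      rw [hWU Q (mem_powerset.1 (mem_filter.1 hQ).1)]]
    rw [Finset.sum_const, nsmul_eq_mul, mul_comm]
    refine mul_le_mul_of_nonneg_left ?_ (hW0 R)
    have h2 : #(B.powerset.filter fun Q => δ (R ∪ Q) = 0) ≤ (#B).choose (#B / 2) := by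
      refine sperner_powerset B _ (fun Q hQ => mem_powerset.1 (mem_filter.1 hQ).1) ?_
      intro Q hQ Q' hQ' hne hsub
      rw [mem_coe, mem_filter, mem_powerset] at hQ hQ'
      have h3 := monotone_flip (A := B) (δ := δ) (R := R) (fun Q hQ p hp hpQ => by
        have h4 := hδ (R ∪ Q) p (by rw [hAU Q hQ]; exact hp) (by
          rw [mem_union, not_or]
          exact ⟨fun h => Finset.disjoint_left.1 hRB h hp, hpQ⟩)
        rwa [← union_insert] at h4) hQ'.1 (Finset.ssubset_iff_subset_ne.2 ⟨hsub, hne⟩)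
      rw [hQ.2, hQ'.2] at h3
      exact lt_irrefl _ h3
    exact_mod_cast h2
  exact hlhs.trans hrhs.ge

end Pool.Agent.N595.RC
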