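import Pool.Agent.N595.RC.Chernoff
import Pool.Agent.N595.RC.Sperner

/-!
# Three integer functions of a random set which vanish simultaneously
-/

set_option autoImplicit false
set_option linter.unusedSectionVars false

namespace Pool.Agent.N595.RC

open Finset

variable {α : Type*} [Fintype α] [DecidableEq α]

/-- The elements of `P` at which `S` has the prescribed pattern. -/
def hitSet (P : Finset α) (E Y : α → Finset α) (S : Finset α) : Finset α :=
  {p ∈ P | S ∩ E p = Y p}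

theorem card_hitSet (P : Finset α) (E Y : α → Finset α) (S : Finset α) :
    #(hitSet P E Y S) = hits P E Y S := rfl

theorem hitSet_subset (P : Finset α) (E Y : α → Finset α) (S : Finset α) :
    hitSet P E Y S ⊆ P := filter_subset _ _

theorem hitSet_congr {P : Finset α} {E Y : α → Finset α} (hE : ∀ p ∈ P, Disjoint (E p) P)
    {S S' : Finset α} (h : S \ P = S' \ P) : hitSet P E Y S = hitSet P E Y S' := by
  refine Finset.filter_congr fun p hp => ?_
  have h1 : ∀ S : Finset α, S ∩ E p = (S \ P) ∩ E p := by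
    intro S
    ext x
    simp only [mem_inter, mem_sdiff]
    constructor
    · rintro ⟨h1, h2⟩
      exact ⟨⟨h1, Finset.disjoint_left.1 (hE p hp) h2⟩, h2⟩
    · rintro ⟨h1, h2⟩
      exact ⟨h1.1, h2⟩
  rw [h1 S, h1 S', h]

theorem hitSet_insert {P : Finset α} {E Y : α → Finset α} (hE : ∀ p ∈ P, Disjoint (E p) P)
    (S : Finset α) {p : α} (hp : p ∈ P) : hitSet P E Y (insert p S) = hitSet P E Y S := by
  refine hitSet_congr hE ?_
  rw [insert_sdiff_of_mem _ hp]

theorem single (D : ℕ) (P : Finset α) (E Y : α → Finset α)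
    (hE : ∀ p ∈ P, Disjoint (E p) P) (hY : ∀ p ∈ P, Y p ⊆ E p) (hD : ∀ p ∈ P, #(E p) ≤ D)
    (hdisj : (P : Set α).PairwiseDisjoint E) (δ : Finset α → ℤ)
    (h1 : ∀ S, ∀ p ∈ P, p ∉ S → S ∩ E p = Y p → δ S < δ (insert p S))
    (n : ℕ) (hn : 1 ≤ n) (hn' : 2 ^ (D + 2) * n ≤ #P) :
    (#{S : Finset α | δ S = 0} : ℝ) ≤
      2 ^ Fintype.card α * (1 / Real.sqrt n + Real.exp (-(#P / 2 ^ (D + 2) : ℝ))) := by
  have s1 := step P (hitSet P E Y) (hitSet_subset P E Y) (fun S S' h => hitSet_congr hE h) δ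
    (fun S p hp hpS => by
      rw [hitSet, mem_filter] at hp
      exact h1 S p hp.1 hpS hp.2) (fun _ => 1) (fun _ => zero_le_one) (fun _ _ _ _ => rfl)
  rw [Finset.sum_const, nsmul_eq_mul, mul_one] at s1
  refine s1.trans ?_
  have s2 : ∀ S : Finset α, 1 * bet #(hitSet P E Y S) ≤
      1 / Real.sqrt n + if hits P E Y S ≤ n then (1 : ℝ) else 0 := by
    intro S
    rw [one_mul, card_hitSet]
    by_cases h : hits P E Y S ≤ n
    · rw [if_pos h]
      have := bet_le_one (hits P E Y S)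
      have h3 : 0 ≤ 1 / Real.sqrt n := by positivity
      linarith
    · rw [if_neg h, add_zero]
      exact bet_le_of_le hn (not_le.1 h).le
  refine (Finset.sum_le_sum fun S _ => s2 S).trans ?_
  rw [Finset.sum_add_distrib, Finset.sum_const, nsmul_eq_mul, Finset.sum_boole, card_univ,
    Fintype.card_finset, mul_add]
  have s3 := few_hits D P E Y hY hD hdisj n hn'
  push_cast
  linarith

theorem triple (D : ℕ) (P : Finset α) (E : α → Finset α) (Y : Fin 3 → α → Finset α)
    (hE : ∀ p ∈ P, Disjoint (E p) P) (hY : ∀ k, ∀ p ∈ P, Y k p ⊆ E p)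
    (hD : ∀ p ∈ P, #(E p) ≤ D) (hdisj : (P : Set α).PairwiseDisjoint E)
    (δ : Fin 3 → Finset α → ℤ)
    (h1 : ∀ k S, ∀ p ∈ P, p ∉ S → S ∩ E p = Y k p → δ k S < δ k (insert p S))
    (h2 : ∀ j k S, j < k → ∀ p ∈ P, p ∉ S → S ∩ E p = Y k p → δ j (insert p S) = δ j S)
    (n : ℕ) (hn : 1 ≤ n) (hn' : 2 ^ (D + 2) * n ≤ #P) :
    (#{S : Finset α | ∀ k, δ k S = 0} : ℝ) ≤
      2 ^ Fintype.card α * ((1 / Real.sqrt n) ^ 3 + 3 * Real.exp (-(#P / 2 ^ (D + 2) : ℝ))) := by
  classical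
  set A : Fin 3 → Finset α → Finset α := fun k S => hitSet P E (Y k) S with hA
  have hmem : ∀ k S p, p ∈ A k S → p ∈ P ∧ S ∩ E p = Y k p := by
    intro k S p hp
    simp only [hA, hitSet, mem_filter] at hp
    exact hp
  have hins : ∀ j k S p, p ∈ A k S → A j (insert p S) = A j S := fun j k S p hp =>
    hitSet_insert hE S (hmem k S p hp).1
  have s2 := step P (A 2) (hitSet_subset P E (Y 2)) (fun S S' h => hitSet_congr hE h) (δ 2)
    (fun S p hp hpS => h1 2 S p (hmem 2 S p hp).1 hpS (hmem 2 S p hp).2)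
    (fun S => if δ 0 S = 0 ∧ δ 1 S = 0 then 1 else 0)
    (fun S => by positivity)
    (fun S p hp hpS => by
      rw [h2 0 2 S (by decide) p (hmem 2 S p hp).1 hpS (hmem 2 S p hp).2,
        h2 1 2 S (by decide) p (hmem 2 S p hp).1 hpS (hmem 2 S p hp).2])
  have s1 := step P (A 1) (hitSet_subset P E (Y 1)) (fun S S' h => hitSet_congr hE h) (δ 1)
    (fun S p hp hpS => h1 1 S p (hmem 1 S p hp).1 hpS (hmem 1 S p hp).2)
    (fun S => (if δ 0 S = 0 then 1 else 0) * bet #(A 2 S))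
    (fun S => mul_nonneg (by positivity) (bet_nonneg _))
    (fun S p hp hpS => by
      rw [h2 0 1 S (by decide) p (hmem 1 S p hp).1 hpS (hmem 1 S p hp).2, hins 2 1 S p hp])
  have s0 := step P (A 0) (hitSet_subset P E (Y 0)) (fun S S' h => hitSet_congr hE h) (δ 0)
    (fun S p hp hpS => h1 0 S p (hmem 0 S p hp).1 hpS (hmem 0 S p hp).2)
    (fun S => bet #(A 2 S) * bet #(A 1 S))
    (fun S => mul_nonneg (bet_nonneg _) (bet_nonneg _))
    (fun S p hp hpS => by rw [hins 2 0 S p hp, hins 1 0 S p hp])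
  have e1 : (#{S : Finset α | ∀ k, δ k S = 0} : ℝ) =
      ∑ S : Finset α with δ 2 S = 0, if δ 0 S = 0 ∧ δ 1 S = 0 then (1 : ℝ) else 0 := by
    rw [Finset.sum_boole, Finset.filter_filter]
    congr 2
    ext S
    simp only [mem_filter, mem_univ, true_and]
    constructor
    · intro h
      exact ⟨h 2, h 0, h 1⟩
    · rintro ⟨h, h', h''⟩ k
      fin_cases k
      · exact h'
      · exact h''
      · exact h
  have e2 : ∑ S : Finset α, (if δ 0 S = 0 ∧ δ 1 S = 0 then (1 : ℝ) else 0) * bet #(A 2 S) =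
      ∑ S : Finset α with δ 1 S = 0, (if δ 0 S = 0 then (1 : ℝ) else 0) * bet #(A 2 S) := by
    rw [Finset.sum_filter]
    refine Finset.sum_congr rfl fun S _ => ?_
    by_cases h : δ 1 S = 0
    · simp [h]
    · simp [h]
  have e3 : ∑ S : Finset α, (if δ 0 S = 0 then (1 : ℝ) else 0) * bet #(A 2 S) * bet #(A 1 S) =
      ∑ S : Finset α with δ 0 S = 0, bet #(A 2 S) * bet #(A 1 S) := by
    rw [Finset.sum_filter]
    refine Finset.sum_congr rfl fun S _ => ?_
    by_cases h : δ 0 S = 0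
    · simp [h]
    · simp [h]
  rw [e1]
  refine s2.trans ?_
  rw [e2]
  refine s1.trans ?_
  rw [e3]
  refine s0.trans ?_
  have s3 : ∀ S : Finset α, bet #(A 2 S) * bet #(A 1 S) * bet #(A 0 S) ≤
      (1 / Real.sqrt n) ^ 3 + ∑ k : Fin 3, if hits P E (Y k) S ≤ n then (1 : ℝ) else 0 := by
    intro S
    have hb0 : ∀ k, 0 ≤ bet #(A k S) := fun k => bet_nonneg _
    have hb1 : ∀ k, bet #(A k S) ≤ 1 := fun k => bet_le_one _
    have hs : 0 ≤ 1 / Real.sqrt n := by positivity
    by_cases h : ∃ k, hits P E (Y k) S ≤ n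
    · obtain ⟨k, hk⟩ := h
      have h3 : (1 : ℝ) ≤ ∑ k : Fin 3, if hits P E (Y k) S ≤ n then (1 : ℝ) else 0 := by
        refine le_trans ?_ (Finset.single_le_sum (f := fun k : Fin 3 =>
          if hits P E (Y k) S ≤ n then (1 : ℝ) else 0) (fun k _ => by positivity) (mem_univ k))
        simp [hk]
      have h4 : bet #(A 2 S) * bet #(A 1 S) * bet #(A 0 S) ≤ 1 := by
        have h5 : bet #(A 2 S) * bet #(A 1 S) ≤ 1 :=
          mul_le_one₀ (hb1 2) (hb0 1) (hb1 1)
        exact mul_le_one₀ h5 (hb0 0) (hb1 0)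
      have h6 : (0 : ℝ) ≤ (1 / Real.sqrt n) ^ 3 := by positivity
      linarith
    · have hb : ∀ k, bet #(A k S) ≤ 1 / Real.sqrt n := by
        intro k
        refine bet_le_of_le hn ?_
        have h7 : ¬ hits P E (Y k) S ≤ n := fun h8 => h ⟨k, h8⟩
        exact (not_le.1 h7).le
      have h3 : (0 : ℝ) ≤ ∑ k : Fin 3, if hits P E (Y k) S ≤ n then (1 : ℝ) else 0 :=
        Finset.sum_nonneg fun k _ => by positivity
      have h4 : bet #(A 2 S) * bet #(A 1 S) * bet #(A 0 S) ≤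
          1 / Real.sqrt n * (1 / Real.sqrt n) * (1 / Real.sqrt n) :=
        mul_le_mul (mul_le_mul (hb 2) (hb 1) (hb0 1) hs) (hb 0) (hb0 0) (by positivity)
      have h5 : (1 / Real.sqrt n) ^ 3 = 1 / Real.sqrt n * (1 / Real.sqrt n) * (1 / Real.sqrt n) := by
        ring
      rw [h5]
      linarith
  refine (Finset.sum_le_sum fun S _ => s3 S).trans ?_
  rw [Finset.sum_add_distrib, Finset.sum_const, nsmul_eq_mul, card_univ,
    Fintype.card_finset, mul_add, Finset.sum_comm]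
  have s4 : ∀ k : Fin 3, ∑ S : Finset α, (if hits P E (Y k) S ≤ n then (1 : ℝ) else 0) ≤
      2 ^ Fintype.card α * Real.exp (-(#P / 2 ^ (D + 2) : ℝ)) := by
    intro k
    rw [Finset.sum_boole]
    exact few_hits D P E (Y k) (hY k) hD hdisj n hn'
  have s5 := Finset.sum_le_sum fun k (_ : k ∈ (univ : Finset (Fin 3))) => s4 k
  rw [Finset.sum_const, card_univ, Fintype.card_fin, nsmul_eq_mul] at s5
  push_cast at s5 ⊢
  linarith

/-- A maximal independent set of a relation of bounded degree is large. -/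
theorem packing {β : Type*} [DecidableEq β] (X : Finset β) (c : β → β → Prop)
    [DecidableRel c] (hrefl : ∀ x, c x x) (hsymm : ∀ x y, c x y → c y x) (K : ℕ)
    (hK : ∀ x ∈ X, #{y ∈ X | c x y} ≤ K) :
    ∃ P ⊆ X, (∀ x ∈ P, ∀ y ∈ P, x ≠ y → ¬ c x y) ∧ #X ≤ K * #P := by
  classical
  let F := X.powerset.filter fun P => ∀ x ∈ P, ∀ y ∈ P, x ≠ y → ¬ c x y
  have hF : F.Nonempty := ⟨∅, by simp [F]⟩
  obtain ⟨P, hP, hmax⟩ := F.exists_max_image (fun P => #P) hF
  simp only [F, mem_filter, mem_powerset] at hP hmax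
  refine ⟨P, hP.1, hP.2, ?_⟩
  have hcov : X ⊆ P.biUnion fun p => {y ∈ X | c p y} := by
    intro x hx
    by_contra hcon
    have h1 : ∀ p ∈ P, ¬ c p x := by
      intro p hp hc
      exact hcon (mem_biUnion.2 ⟨p, hp, mem_filter.2 ⟨hx, hc⟩⟩)
    have hxP : x ∉ P := fun h => h1 x h (hrefl x)
    have h2 := hmax (insert x P) ⟨insert_subset hx hP.1, by
      intro y hy z hz hne
      rw [mem_insert] at hy hz
      rcases hy with rfl | hy <;> rcases hz with rfl | hz
      · exact absurd rfl hne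
      · exact fun hc => h1 z hz (hsymm _ _ hc)
      · exact h1 y hy
      · exact hP.2 y hy z hz hne⟩
    rw [card_insert_of_notMem hxP] at h2
    omega
  calc #X ≤ #(P.biUnion fun p => {y ∈ X | c p y}) := card_le_card hcov
    _ ≤ ∑ p ∈ P, #{y ∈ X | c p y} := card_biUnion_le
    _ ≤ ∑ p ∈ P, K := Finset.sum_le_sum fun p hp => hK p (hP.1 hp)
    _ = K * #P := by rw [Finset.sum_const, smul_eq_mul, mul_comm]

end Pool.Agent.N595.RC
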